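import Mathlib

/-!
Definitions for the critical Hardy-Rellich inequality with logarithmic weight.
-/

open MeasureTheory Laplacian InnerProductSpace
open scoped ENNReal

namespace Pool.Agent.HRLog

/-- `|∇^k u|(x)` with the Rellich convention: `∇^k u = Δ^m u` for `k = 2m` and
`∇^k u = ∇ Δ^m u` for `k = 2m+1`. -/
noncomputable def absNabla {N : ℕ} (k : ℕ) (u : EuclideanSpace ℝ (Fin N) → ℝ)
    (x : EuclideanSpace ℝ (Fin N)) : ℝ :=
  if Even k then |((fun v : EuclideanSpace ℝ (Fin N) → ℝ => Δ v)^[k / 2] u) x|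
  else ‖gradient ((fun v : EuclideanSpace ℝ (Fin N) → ℝ => Δ v)^[k / 2] u) x‖

/-- `C_{N,k} = (∏_{j=1}^k (jN-k)/N)^{N/k}`. -/
noncomputable def constC (N k : ℕ) : ℝ :=
  (∏ j ∈ Finset.Icc 1 k, ((j : ℝ) * N - k) / N) ^ ((N : ℝ) / k)

/-- Part (i) of the problem for given `N`, `k`, `R`: for every `u ∈ C_c^k(B_R)`,
`C_{N,k} ∫_{B_R} |u|^{N/k} / (|x|^N (log (R/|x|))^N) dx ≤ ∫_{B_R} |∇^k u|^{N/k} dx`. -/
def HardyRellich (N k : ℕ) (R : ℝ) : Prop :=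
  ∀ u : EuclideanSpace ℝ (Fin N) → ℝ, ContDiff ℝ k u → HasCompactSupport u →
    tsupport u ⊆ Metric.ball 0 R →
    ENNReal.ofReal (constC N k) * ∫⁻ x in Metric.ball (0 : EuclideanSpace ℝ (Fin N)) R,
        ENNReal.ofReal (|u x| ^ ((N : ℝ) / k) / (‖x‖ ^ N * Real.log (R / ‖x‖) ^ N)) ≤
      ∫⁻ x in Metric.ball (0 : EuclideanSpace ℝ (Fin N)) R,
        ENNReal.ofReal (absNabla k u x ^ ((N : ℝ) / k))

end Pool.Agent.HRLog
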