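import Mathlib

/-!
The measure `|x|^{-N} dx` of a spherical shell.
-/

namespace Pool.Agent.HRLog

open MeasureTheory Set Filter Topology
open scoped ENNReal

lemma shell_aux {N : ℕ} (hN : 1 ≤ N) {a b : ℝ} (ha : 0 < a) (hab : a < b) :
    ∀ y ∈ Ioi (0:ℝ), y ^ (N - 1) • (Ico a b).indicator (fun r : ℝ => (r ^ N)⁻¹) y =
      (Ico a b).indicator (fun r : ℝ => r⁻¹) y := by
  intro y hy
  have hy0 : (0:ℝ) < y := hy
  by_cases h : y ∈ Ico a b
  · rw [indicator_of_mem h, indicator_of_mem h, smul_eq_mul]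
    obtain ⟨m, rfl⟩ : ∃ m, N = m + 1 := ⟨N - 1, by omega⟩
    rw [Nat.add_sub_cancel, pow_succ]
    field_simp
  · rw [indicator_of_notMem h, indicator_of_notMem h, smul_zero]

lemma shell_lintegral {N : ℕ} (hN : 1 ≤ N) :
    ∃ κ : ℝ, 0 < κ ∧ ∀ a b : ℝ, 0 < a → a < b →
      ∫⁻ x in {x : EuclideanSpace ℝ (Fin N) | a ≤ ‖x‖ ∧ ‖x‖ < b}, ENNReal.ofReal ((‖x‖ ^ N)⁻¹) =
        ENNReal.ofReal (κ * Real.log (b / a)) := by
  have hne : Nonempty (Fin N) := ⟨⟨0, by omega⟩⟩
  have hnt : Nontrivial (EuclideanSpace ℝ (Fin N)) := inferInstance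
  have hdim : Module.finrank ℝ (EuclideanSpace ℝ (Fin N)) = N := by simp
  refine ⟨N * (volume : Measure (EuclideanSpace ℝ (Fin N))).real (Metric.ball 0 1), ?_, ?_⟩
  · have h1 : (0:ℝ) < N := by exact_mod_cast hN
    have h2 : 0 < (volume : Measure (EuclideanSpace ℝ (Fin N))).real (Metric.ball 0 1) := by
      rw [Measure.real, ENNReal.toReal_pos_iff]
      exact ⟨Metric.measure_ball_pos _ _ one_pos, measure_ball_lt_top⟩
    positivity
  intro a b ha hab
  have hb : 0 < b := ha.trans hab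
  set f : ℝ → ℝ := (Ico a b).indicator (fun r : ℝ => (r ^ N)⁻¹) with hf
  have hS : MeasurableSet {x : EuclideanSpace ℝ (Fin N) | a ≤ ‖x‖ ∧ ‖x‖ < b} :=
    (measurableSet_le measurable_const measurable_norm).inter
      (measurableSet_lt measurable_norm measurable_const)
  have h1 : ∫⁻ x in {x : EuclideanSpace ℝ (Fin N) | a ≤ ‖x‖ ∧ ‖x‖ < b},
      ENNReal.ofReal ((‖x‖ ^ N)⁻¹) = ∫⁻ x : EuclideanSpace ℝ (Fin N), ENNReal.ofReal (f ‖x‖) := by
    rw [← lintegral_indicator hS]
    apply lintegral_congr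
    intro x
    by_cases h : a ≤ ‖x‖ ∧ ‖x‖ < b
    · rw [indicator_of_mem (by exact h), hf, indicator_of_mem (by exact h)]
    · rw [indicator_of_notMem (by exact h), hf, indicator_of_notMem (by exact h)]
      simp
  have hinv : IntegrableOn (fun r : ℝ => r⁻¹) (Ico a b) := by
    apply (ContinuousOn.integrableOn_Icc (a := a) (b := b) _).mono_set Ico_subset_Icc_self
    apply continuousOn_inv₀.mono
    intro y hy h0
    have : y = 0 := h0
    linarith [hy.1]
  have h2 : IntegrableOn (fun y : ℝ =>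
      y ^ (Module.finrank ℝ (EuclideanSpace ℝ (Fin N)) - 1) • f y) (Ioi 0) := by
    rw [hdim]
    apply IntegrableOn.congr_fun _ (fun y hy => (shell_aux hN ha hab y hy).symm) measurableSet_Ioi
    exact (hinv.integrable_indicator measurableSet_Ico).integrableOn
  have h3 : Integrable (fun x : EuclideanSpace ℝ (Fin N) => f ‖x‖) volume :=
    (integrable_fun_norm_addHaar (volume : Measure (EuclideanSpace ℝ (Fin N)))).mpr h2
  have hf0 : ∀ r, 0 ≤ f r := by
    intro r
    apply indicator_nonneg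
    intro y hy
    have : 0 < y := lt_of_lt_of_le ha hy.1
    positivity
  rw [h1, ← ofReal_integral_eq_lintegral_ofReal h3 (Eventually.of_forall fun x => hf0 _)]
  congr 1
  rw [integral_fun_norm_addHaar (volume : Measure (EuclideanSpace ℝ (Fin N))) f, hdim]
  have h4 : ∫ y in Ioi (0:ℝ), y ^ (N - 1) • f y = Real.log (b / a) := by
    rw [setIntegral_congr_fun measurableSet_Ioi (shell_aux hN ha hab)]
    rw [setIntegral_indicator measurableSet_Ico]
    have : Ioi (0:ℝ) ∩ Ico a b = Ico a b := by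
      apply inter_eq_right.mpr
      intro y hy
      exact lt_of_lt_of_le ha hy.1
    rw [this, integral_Ico_eq_integral_Ioc, ← intervalIntegral.integral_of_le hab.le,
      integral_inv_of_pos ha hb]
  rw [h4]
  simp
  ring

end Pool.Agent.HRLog
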