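import Mathlib

/-!
The one-dimensional profile: a cubic spline `Φ` with `|Φ'' - Φ'| ≤ 1` and
`Φ(τ) ≥ 0.597 τ^2` on `[0.6, 0.8]`.
-/

namespace Pool.Agent.HRLog

open Set Filter Topology

/-- positive part powers -/
lemma hasDerivAt_posPow (n : ℕ) (x : ℝ) :
    HasDerivAt (fun x : ℝ => (max x 0) ^ (n + 2)) ((n + 2 : ℕ) * (max x 0) ^ (n + 1)) x := by
  have hg : Continuous fun x : ℝ => ((n + 2 : ℕ) : ℝ) * (max x 0) ^ (n + 1) := by fun_prop
  have hf : Continuous fun x : ℝ => (max x 0) ^ (n + 2) := by fun_prop
  refine hasDerivAt_of_hasDerivAt_of_ne' (x := 0) (g := fun x : ℝ =>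
    ((n + 2 : ℕ) : ℝ) * (max x 0) ^ (n + 1)) ?_ hf.continuousAt hg.continuousAt x
  intro y hy
  rcases lt_or_gt_of_ne hy with h | h
  · have h1 : (fun x : ℝ => (max x 0) ^ (n + 2)) =ᶠ[𝓝 y] fun _ => 0 := by
      filter_upwards [Iio_mem_nhds h] with z hz
      rw [max_eq_right (le_of_lt hz)]; simp
    rw [max_eq_right h.le]
    simpa using (hasDerivAt_const y (0:ℝ)).congr_of_eventuallyEq h1
  · have h1 : (fun x : ℝ => (max x 0) ^ (n + 2)) =ᶠ[𝓝 y] fun x => x ^ (n + 2) := by
      filter_upwards [Ioi_mem_nhds h] with z hz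
      rw [max_eq_left (le_of_lt hz)]
    rw [max_eq_left h.le]
    have h2 := (hasDerivAt_pow (n + 2) y).congr_of_eventuallyEq h1
    simpa using h2

/-- the second derivative of the profile -/
noncomputable def ddPhi (t : ℝ) : ℝ :=
  500 * max (t - 1/1000) 0 - 15468/31 * max (t - 3/1000) 0 - 5677/124 * max (t - 623/1000) 0
    + 760259/16984 * max (t - 663/1000) 0 - 225/16984 * max (t - 35957/3000) 0

/-- the first derivative of the profile -/
noncomputable def dPhi (t : ℝ) : ℝ :=
  250 * max (t - 1/1000) 0 ^ 2 - 15468/62 * max (t - 3/1000) 0 ^ 2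
    - 5677/248 * max (t - 623/1000) 0 ^ 2
    + 760259/33968 * max (t - 663/1000) 0 ^ 2 - 225/33968 * max (t - 35957/3000) 0 ^ 2

/-- the profile -/
noncomputable def Phi (t : ℝ) : ℝ :=
  250/3 * max (t - 1/1000) 0 ^ 3 - 15468/186 * max (t - 3/1000) 0 ^ 3
    - 5677/744 * max (t - 623/1000) 0 ^ 3
    + 760259/101904 * max (t - 663/1000) 0 ^ 3 - 225/101904 * max (t - 35957/3000) 0 ^ 3

lemma hasDerivAt_shift (n : ℕ) (a t : ℝ) :
    HasDerivAt (fun t : ℝ => (max (t - a) 0) ^ (n + 2))
      ((n + 2 : ℕ) * (max (t - a) 0) ^ (n + 1)) t := by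
  have h := HasDerivAt.comp t (hasDerivAt_posPow n (t - a)) ((hasDerivAt_id t).sub_const a)
  rw [mul_one] at h
  exact h

lemma hasDerivAt_Phi (t : ℝ) : HasDerivAt Phi (dPhi t) t := by
  have h := fun a => hasDerivAt_shift 1 a t
  have := (((((h (1/1000)).const_mul (250/3)).sub ((h (3/1000)).const_mul (15468/186))).sub
    ((h (623/1000)).const_mul (5677/744))).add ((h (663/1000)).const_mul (760259/101904))).sub
    ((h (35957/3000)).const_mul (225/101904))
  refine this.congr_deriv ?_
  unfold dPhi
  norm_num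
  ring

lemma hasDerivAt_dPhi (t : ℝ) : HasDerivAt dPhi (ddPhi t) t := by
  have h := fun a => hasDerivAt_shift 0 a t
  have := (((((h (1/1000)).const_mul 250).sub ((h (3/1000)).const_mul (15468/62))).sub
    ((h (623/1000)).const_mul (5677/248))).add ((h (663/1000)).const_mul (760259/33968))).sub
    ((h (35957/3000)).const_mul (225/33968))
  refine this.congr_deriv ?_
  unfold ddPhi
  norm_num
  ring

lemma continuous_ddPhi : Continuous ddPhi := by
  unfold ddPhi; fun_prop

lemma contDiff_Phi : ContDiff ℝ 2 Phi := by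
  have h1 : deriv Phi = dPhi := funext fun t => (hasDerivAt_Phi t).deriv
  have h2 : deriv dPhi = ddPhi := funext fun t => (hasDerivAt_dPhi t).deriv
  rw [show (2 : WithTop ℕ∞) = 1 + 1 by norm_num, contDiff_succ_iff_deriv]
  refine ⟨fun t => (hasDerivAt_Phi t).differentiableAt, by simp, ?_⟩
  rw [h1, contDiff_one_iff_deriv, h2]
  exact ⟨fun t => (hasDerivAt_dPhi t).differentiableAt, continuous_ddPhi⟩

lemma Phi_zero {t : ℝ} (ht : t ≤ 1/1000) : Phi t = 0 := by
  unfold Phi
  rw [max_eq_right (by linarith), max_eq_right (by linarith), max_eq_right (by linarith),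
    max_eq_right (by linarith), max_eq_right (by linarith)]
  norm_num

lemma dPhi_zero {t : ℝ} (ht : t ≤ 1/1000) : dPhi t = 0 := by
  unfold dPhi
  rw [max_eq_right (by linarith), max_eq_right (by linarith), max_eq_right (by linarith),
    max_eq_right (by linarith), max_eq_right (by linarith)]
  norm_num

lemma ddPhi_zero {t : ℝ} (ht : t ≤ 1/1000) : ddPhi t = 0 := by
  unfold ddPhi
  rw [max_eq_right (by linarith), max_eq_right (by linarith), max_eq_right (by linarith),
    max_eq_right (by linarith), max_eq_right (by linarith)]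
  norm_num

lemma dPhi_top {t : ℝ} (ht : 35957/3000 ≤ t) : dPhi t = 0 := by
  unfold dPhi
  rw [max_eq_left (by linarith), max_eq_left (by linarith), max_eq_left (by linarith),
    max_eq_left (by linarith), max_eq_left (by linarith)]
  ring

lemma ddPhi_top {t : ℝ} (ht : 35957/3000 ≤ t) : ddPhi t = 0 := by
  unfold ddPhi
  rw [max_eq_left (by linarith), max_eq_left (by linarith), max_eq_left (by linarith),
    max_eq_left (by linarith), max_eq_left (by linarith)]
  ring

lemma Phi_top {t : ℝ} (ht : 12 ≤ t) : Phi t = Phi 12 := by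
  unfold Phi
  rw [max_eq_left (by linarith), max_eq_left (by linarith), max_eq_left (by linarith),
    max_eq_left (by linarith), max_eq_left (by linarith)]
  norm_num
  ring

/-- `|Φ'' - Φ'| ≤ 1` -/
lemma abs_g_le (t : ℝ) : |ddPhi t - dPhi t| ≤ 1 := by
  rcases le_total t (1/1000) with h0 | h0
  · rw [ddPhi_zero h0, dPhi_zero h0]; norm_num
  rcases le_total t (3/1000) with h1 | h1
  · unfold ddPhi dPhi
    rw [max_eq_left (by linarith), max_eq_right (by linarith), max_eq_right (by linarith),
      max_eq_right (by linarith), max_eq_right (by linarith), abs_le]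
    constructor <;> nlinarith
  rcases le_total t (623/1000) with h2 | h2
  · unfold ddPhi dPhi
    rw [max_eq_left (by linarith), max_eq_left (by linarith), max_eq_right (by linarith),
      max_eq_right (by linarith), max_eq_right (by linarith), abs_le]
    constructor <;> nlinarith [sq_nonneg (t - 3/1000 - 1/32)]
  rcases le_total t (663/1000) with h3 | h3
  · unfold ddPhi dPhi
    rw [max_eq_left (by linarith), max_eq_left (by linarith), max_eq_left (by linarith),
      max_eq_right (by linarith), max_eq_right (by linarith), abs_le]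
    constructor <;> nlinarith
  rcases le_total t (35957/3000) with h4 | h4
  · unfold ddPhi dPhi
    rw [max_eq_left (by linarith), max_eq_left (by linarith), max_eq_left (by linarith),
      max_eq_left (by linarith), max_eq_right (by linarith), abs_le]
    constructor <;> nlinarith
  · rw [ddPhi_top h4, dPhi_top h4]; norm_num

/-- `Φ(τ) ≥ 0.597 τ^2` on `[0.6, 0.8]` -/
lemma Phi_ge {t : ℝ} (h1 : 3/5 ≤ t) (h2 : t ≤ 4/5) : 597/1000 * t ^ 2 ≤ Phi t := by
  rcases le_total t (623/1000) with h3 | h3
  · unfold Phi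
    rw [max_eq_left (by linarith), max_eq_left (by linarith), max_eq_right (by linarith),
      max_eq_right (by linarith), max_eq_right (by linarith)]
    nlinarith [mul_nonneg (sub_nonneg.mpr h1) (sub_nonneg.mpr h3)]
  rcases le_total t (663/1000) with h4 | h4
  · unfold Phi
    rw [max_eq_left (by linarith), max_eq_left (by linarith), max_eq_left (by linarith),
      max_eq_right (by linarith), max_eq_right (by linarith)]
    nlinarith [mul_nonneg (sub_nonneg.mpr h3) (sub_nonneg.mpr h4)]
  · unfold Phi
    rw [max_eq_left (by linarith), max_eq_left (by linarith), max_eq_left (by linarith),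
      max_eq_left (by linarith), max_eq_right (by linarith)]
    nlinarith [mul_nonneg (sub_nonneg.mpr h4) (sub_nonneg.mpr h2)]

end Pool.Agent.HRLog
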