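import Mathlib
import Pool.Agent.HRLog.Spline

/-!
Laplacian of radial functions and the test function.
-/

namespace Pool.Agent.HRLog

open Set Filter Topology InnerProductSpace Laplacian

/-- Laplacian of a radial function. -/
lemma laplacian_radial {N : ℕ} (F F' F'' : ℝ → ℝ) (h1 : ∀ s, HasDerivAt F (F' s) s)
    (h2 : ∀ s, HasDerivAt F' (F'' s) s) (x : EuclideanSpace ℝ (Fin N)) :
    (Δ (fun x : EuclideanSpace ℝ (Fin N) => F (‖x‖ ^ 2))) x =
      4 * ‖x‖ ^ 2 * F'' (‖x‖ ^ 2) + 2 * N * F' (‖x‖ ^ 2) := by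
  have hq : ∀ y : EuclideanSpace ℝ (Fin N),
      HasFDerivAt (fun y : EuclideanSpace ℝ (Fin N) => ‖y‖ ^ 2) (2 • innerSL ℝ y) y :=
    fun y => (hasStrictFDerivAt_norm_sq y).hasFDerivAt
  have hu : ∀ y, HasFDerivAt (fun x : EuclideanSpace ℝ (Fin N) => F (‖x‖ ^ 2))
      ((F' (‖y‖ ^ 2)) • (2 • innerSL ℝ y)) y := fun y => (h1 _).comp_hasFDerivAt y (hq y)
  have hfd : fderiv ℝ (fun x : EuclideanSpace ℝ (Fin N) => F (‖x‖ ^ 2)) =
      fun y => (F' (‖y‖ ^ 2)) • (2 • innerSL ℝ y) := funext fun y => (hu y).fderiv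
  have hc : HasFDerivAt (fun y : EuclideanSpace ℝ (Fin N) => F' (‖y‖ ^ 2))
      ((F'' (‖x‖ ^ 2)) • (2 • innerSL ℝ x)) x := (h2 _).comp_hasFDerivAt x (hq x)
  have hL : HasFDerivAt (fun y : EuclideanSpace ℝ (Fin N) => (2:ℕ) • innerSL ℝ y)
      ((2:ℕ) • innerSL ℝ) x := ((innerSL ℝ).hasFDerivAt (x := x)).const_smul (2:ℕ)
  have hD : HasFDerivAt (fun y : EuclideanSpace ℝ (Fin N) => (F' (‖y‖ ^ 2)) • ((2:ℕ) • innerSL ℝ y))
      _ x := hc.smul hL
  rw [laplacian_eq_iteratedFDeriv_orthonormalBasis _ (EuclideanSpace.basisFun (Fin N) ℝ)]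
  have hterm : ∀ i, iteratedFDeriv ℝ 2 (fun x : EuclideanSpace ℝ (Fin N) => F (‖x‖ ^ 2)) x
      ![(EuclideanSpace.basisFun (Fin N) ℝ) i, (EuclideanSpace.basisFun (Fin N) ℝ) i] =
      2 * F' (‖x‖ ^ 2) + 4 * F'' (‖x‖ ^ 2) * (x i) ^ 2 := by
    intro i
    rw [iteratedFDeriv_two_apply, hfd]
    simp only [Matrix.cons_val_zero, Matrix.cons_val_one]
    rw [hD.fderiv]
    have e1 : (innerSL ℝ (EuclideanSpace.single i (1:ℝ)) : EuclideanSpace ℝ (Fin N) →L[ℝ] ℝ)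
        (EuclideanSpace.single i (1:ℝ)) = 1 := by
      rw [innerSL_apply_apply, EuclideanSpace.inner_single_left]
      simp
    have e2 : inner ℝ x (EuclideanSpace.single i (1:ℝ)) = x i := by
      rw [EuclideanSpace.inner_single_right]
      simp
    simp [EuclideanSpace.basisFun_apply, e1, e2]
    ring
  have hn : ‖x‖ ^ 2 = ∑ i, x i ^ 2 := EuclideanSpace.real_norm_sq_eq x
  simp only [hterm]
  rw [Finset.sum_add_distrib, ← Finset.mul_sum (f := fun i => x i ^ 2), ← hn]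
  simp
  ring

end Pool.Agent.HRLog
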