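import Mathlib
import Pool.Agent.HRLog.Spline
import Pool.Agent.HRLog.Radial

/-!
The test function `u(x) = Φ((N-2) log (R/|x|))`, written as a function of `|x|^2`.
-/

namespace Pool.Agent.HRLog

open Set Filter Topology InnerProductSpace Laplacian

section

variable (c R : ℝ)

/-- the logarithmic variable as a function of `s = |x|^2` -/
noncomputable def A (s : ℝ) : ℝ := c * (Real.log R - 1 / 2 * Real.log s)

noncomputable def s1 : ℝ := R ^ 2 * Real.exp (-26 / c)
noncomputable def s2 : ℝ := R ^ 2 * Real.exp (-24 / c)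

noncomputable def F (s : ℝ) : ℝ := if s < s1 c R then Phi 12 else Phi (A c R s)
noncomputable def F1 (s : ℝ) : ℝ := if s < s1 c R then 0 else dPhi (A c R s) * (-c / (2 * s))
noncomputable def F2 (s : ℝ) : ℝ := if s < s1 c R then 0 else
  ddPhi (A c R s) * (c ^ 2 / (4 * s ^ 2)) + dPhi (A c R s) * (c / (2 * s ^ 2))

variable {c R}

lemma s1_pos (hR : 0 < R) : 0 < s1 c R := by unfold s1; positivity

lemma s1_lt_s2 (hc : 0 < c) (hR : 0 < R) : s1 c R < s2 c R := by
  unfold s1 s2
  apply mul_lt_mul_of_pos_left _ (by positivity)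
  apply Real.exp_lt_exp.mpr
  apply div_lt_div_of_pos_right _ hc
  norm_num

lemma A_antitone (hc : 0 < c) {s t : ℝ} (hs : 0 < s) (hst : s ≤ t) : A c R t ≤ A c R s := by
  unfold A
  have := Real.log_le_log hs hst
  apply mul_le_mul_of_nonneg_left _ hc.le
  linarith

lemma A_scale (hc : 0 < c) (hR : 0 < R) (τ : ℝ) : A c R (R ^ 2 * Real.exp (-2 * τ / c)) = τ := by
  unfold A
  rw [Real.log_mul (by positivity) (Real.exp_pos _).ne', Real.log_exp, Real.log_pow]
  push_cast
  field_simp
  ring

lemma A_ge_twelve (hc : 0 < c) (hR : 0 < R) {s : ℝ} (h1 : s1 c R ≤ s) (h2 : s < s2 c R) :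
    12 ≤ A c R s := by
  have h3 : A c R (s2 c R) = 12 := by
    have := A_scale hc hR 12
    unfold s2
    rw [← this]
    norm_num
  rw [← h3]
  exact A_antitone hc (lt_of_lt_of_le (s1_pos hR) h1) h2.le

lemma hasDerivAt_A {s : ℝ} (hs : 0 < s) : HasDerivAt (A c R) (-c / (2 * s)) s := by
  have h := (((Real.hasDerivAt_log hs.ne').const_mul (1/2 : ℝ)).const_sub (Real.log R)).const_mul c
  refine h.congr_deriv ?_
  field_simp

lemma hasDerivAt_F (hc : 0 < c) (hR : 0 < R) (s : ℝ) : HasDerivAt (F c R) (F1 c R s) s := by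
  rcases lt_or_ge s (s2 c R) with h | h
  · have h1 : F1 c R s = 0 := by
      unfold F1
      split_ifs with h3
      · rfl
      · rw [dPhi_top (by linarith [A_ge_twelve hc hR (not_lt.mp h3) h]), zero_mul]
    rw [h1]
    apply (hasDerivAt_const s (Phi 12)).congr_of_eventuallyEq
    filter_upwards [Iio_mem_nhds h] with z hz
    unfold F
    split_ifs with h3
    · rfl
    · rw [Phi_top (A_ge_twelve hc hR (not_lt.mp h3) hz)]
  · have h1 : s1 c R < s := lt_of_lt_of_le (s1_lt_s2 hc hR) h
    have hs : 0 < s := (s1_pos hR).trans h1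
    have h2 : F1 c R s = dPhi (A c R s) * (-c / (2 * s)) := by
      unfold F1; rw [if_neg (not_lt.mpr h1.le)]
    rw [h2]
    have h3 := (hasDerivAt_Phi (A c R s)).comp s (hasDerivAt_A (c := c) (R := R) hs)
    apply h3.congr_of_eventuallyEq
    filter_upwards [Ioi_mem_nhds h1] with z hz
    unfold F
    rw [if_neg (not_lt.mpr (le_of_lt hz))]
    rfl

lemma hasDerivAt_F1 (hc : 0 < c) (hR : 0 < R) (s : ℝ) : HasDerivAt (F1 c R) (F2 c R s) s := by
  rcases lt_or_ge s (s2 c R) with h | h
  · have h1 : F2 c R s = 0 := by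
      unfold F2
      split_ifs with h3
      · rfl
      · have := A_ge_twelve hc hR (not_lt.mp h3) h
        rw [dPhi_top (by linarith), ddPhi_top (by linarith)]
        ring
    rw [h1]
    apply (hasDerivAt_const s (0:ℝ)).congr_of_eventuallyEq
    filter_upwards [Iio_mem_nhds h] with z hz
    unfold F1
    split_ifs with h3
    · rfl
    · rw [dPhi_top (by linarith [A_ge_twelve hc hR (not_lt.mp h3) hz]), zero_mul]
  · have h1 : s1 c R < s := lt_of_lt_of_le (s1_lt_s2 hc hR) h
    have hs : 0 < s := (s1_pos hR).trans h1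
    have h2 : F2 c R s = ddPhi (A c R s) * (c ^ 2 / (4 * s ^ 2)) +
        dPhi (A c R s) * (c / (2 * s ^ 2)) := by
      unfold F2; rw [if_neg (not_lt.mpr h1.le)]
    rw [h2]
    have h3 := (hasDerivAt_dPhi (A c R s)).comp s (hasDerivAt_A (c := c) (R := R) hs)
    have h4 : HasDerivAt (fun z : ℝ => -c / (2 * z)) (c / (2 * s ^ 2)) s := by
      have h5 := (hasDerivAt_const s (-c)).div ((hasDerivAt_id s).const_mul 2) (by simp [hs.ne'])
      refine h5.congr_deriv ?_
      simp only [id]
      field_simp
      ring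
    have h6 := h3.mul h4
    refine HasDerivAt.congr_of_eventuallyEq (h6.congr_deriv ?_) ?_
    · simp only [Function.comp_apply]
      field_simp
      ring
    filter_upwards [Ioi_mem_nhds h1] with z hz
    unfold F1
    rw [if_neg (not_lt.mpr (le_of_lt hz))]
    rfl

lemma continuous_F2 (hc : 0 < c) (hR : 0 < R) : Continuous (F2 c R) := by
  rw [continuous_iff_continuousAt]
  intro s
  rcases lt_or_ge s (s2 c R) with h | h
  · have : F2 c R =ᶠ[𝓝 s] fun _ => 0 := by
      filter_upwards [Iio_mem_nhds h] with z hz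
      unfold F2
      split_ifs with h3
      · rfl
      · have := A_ge_twelve hc hR (not_lt.mp h3) hz
        rw [dPhi_top (by linarith), ddPhi_top (by linarith)]
        ring
    exact continuousAt_const.congr this.symm
  · have h1 : s1 c R < s := lt_of_lt_of_le (s1_lt_s2 hc hR) h
    have hs : 0 < s := (s1_pos hR).trans h1
    have hA : ContinuousAt (A c R) s := (hasDerivAt_A (c := c) (R := R) hs).continuousAt
    have hd : Continuous dPhi := continuous_iff_continuousAt.mpr
      fun t => (hasDerivAt_dPhi t).continuousAt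
    have h3 : ContinuousAt (fun s => ddPhi (A c R s) * (c ^ 2 / (4 * s ^ 2)) +
        dPhi (A c R s) * (c / (2 * s ^ 2))) s := by
      apply ContinuousAt.add
      · apply ContinuousAt.mul
        · exact ContinuousAt.comp (f := A c R) continuous_ddPhi.continuousAt hA
        · apply ContinuousAt.div continuousAt_const (by fun_prop) (by positivity)
      · apply ContinuousAt.mul
        · exact ContinuousAt.comp (f := A c R) hd.continuousAt hA
        · apply ContinuousAt.div continuousAt_const (by fun_prop) (by positivity)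
    apply h3.congr
    filter_upwards [Ioi_mem_nhds h1] with z hz
    unfold F2
    rw [if_neg (not_lt.mpr (le_of_lt hz))]

lemma contDiff_F (hc : 0 < c) (hR : 0 < R) : ContDiff ℝ 2 (F c R) := by
  have h1 : deriv (F c R) = F1 c R := funext fun t => (hasDerivAt_F hc hR t).deriv
  have h2 : deriv (F1 c R) = F2 c R := funext fun t => (hasDerivAt_F1 hc hR t).deriv
  rw [show (2 : WithTop ℕ∞) = 1 + 1 by norm_num, contDiff_succ_iff_deriv]
  refine ⟨fun t => (hasDerivAt_F hc hR t).differentiableAt, by simp, ?_⟩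
  rw [h1, contDiff_one_iff_deriv, h2]
  exact ⟨fun t => (hasDerivAt_F1 hc hR t).differentiableAt, continuous_F2 hc hR⟩

end

end Pool.Agent.HRLog
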