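import Mathlib
import Pool.Agent.HRLog.Defs
import Pool.Agent.HRLog.TestFun
import Pool.Agent.HRLog.Shell

/-!
Failure of the critical Hardy-Rellich inequality for `k = 2` and `N ≥ 64`.
-/

namespace Pool.Agent.HRLog

open MeasureTheory Set Filter Topology Laplacian InnerProductSpace
open scoped ENNReal

variable {N : ℕ} {R : ℝ}

/-- the test function -/
noncomputable def tu (N : ℕ) (R : ℝ) (x : EuclideanSpace ℝ (Fin N)) : ℝ :=
  F ((N : ℝ) - 2) R (‖x‖ ^ 2)

lemma contDiff_tu (hN : 64 ≤ N) (hR : 0 < R) : ContDiff ℝ 2 (tu N R) := by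
  have hc : (0:ℝ) < (N:ℝ) - 2 := by
    have : (64:ℝ) ≤ N := by exact_mod_cast hN
    linarith
  exact (contDiff_F hc hR).comp (contDiff_norm_sq ℝ)

lemma laplacian_tu (hN : 64 ≤ N) (hR : 0 < R) (x : EuclideanSpace ℝ (Fin N)) :
    (Δ (tu N R)) x = 4 * ‖x‖ ^ 2 * F2 ((N : ℝ) - 2) R (‖x‖ ^ 2) +
      2 * N * F1 ((N : ℝ) - 2) R (‖x‖ ^ 2) := by
  have hc : (0:ℝ) < (N:ℝ) - 2 := by
    have : (64:ℝ) ≤ N := by exact_mod_cast hN
    linarith
  exact laplacian_radial _ _ _ (hasDerivAt_F hc hR) (hasDerivAt_F1 hc hR) x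

/-- The inner radius of the support of the Laplacian. -/
noncomputable def rin (N : ℕ) (R : ℝ) : ℝ := R * Real.exp (-12 / ((N:ℝ) - 2))

lemma abs_laplacian_le (hN : 64 ≤ N) (hR : 0 < R) {x : EuclideanSpace ℝ (Fin N)}
    (hx : rin N R ≤ ‖x‖) : |(Δ (tu N R)) x| ≤ ((N:ℝ) - 2) ^ 2 / ‖x‖ ^ 2 := by
  have hc : (0:ℝ) < (N:ℝ) - 2 := by
    have : (64:ℝ) ≤ N := by exact_mod_cast hN
    linarith
  have hx0 : 0 < ‖x‖ := lt_of_lt_of_le (by unfold rin; positivity) hx
  rw [laplacian_tu hN hR]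
  set c : ℝ := (N:ℝ) - 2 with hcdef
  have hNc : (N:ℝ) = c + 2 := by rw [hcdef]; ring
  unfold F1 F2
  split_ifs with h
  · rw [mul_zero, mul_zero, add_zero, abs_zero]; positivity
  · set s := ‖x‖ ^ 2 with hs
    have hs0 : 0 < s := by positivity
    have e1 : 4 * s * (ddPhi (A c R s) * (c ^ 2 / (4 * s ^ 2)) + dPhi (A c R s) * (c / (2 * s ^ 2)))
        + 2 * (N:ℝ) * (dPhi (A c R s) * (-c / (2 * s))) =
        (c ^ 2 / s) * (ddPhi (A c R s) - dPhi (A c R s)) := by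
      rw [hNc]
      field_simp
      ring
    rw [e1, abs_mul, abs_of_pos (by positivity)]
    calc c ^ 2 / s * |ddPhi (A c R s) - dPhi (A c R s)| ≤ c ^ 2 / s * 1 := by
          gcongr
          exact abs_g_le _
      _ = c ^ 2 / s := mul_one _

lemma laplacian_zero (hN : 64 ≤ N) (hR : 0 < R) {x : EuclideanSpace ℝ (Fin N)}
    (hx : ‖x‖ < rin N R) : (Δ (tu N R)) x = 0 := by
  have hc : (0:ℝ) < (N:ℝ) - 2 := by
    have : (64:ℝ) ≤ N := by exact_mod_cast hN
    linarith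
  rw [laplacian_tu hN hR]
  set c : ℝ := (N:ℝ) - 2 with hcdef
  have hs2 : ‖x‖ ^ 2 < s2 c R := by
    have h1 : rin N R ^ 2 = s2 c R := by
      unfold rin s2
      rw [mul_pow, ← Real.exp_nat_mul]
      congr 2
      push_cast
      ring
    rw [← h1]
    exact pow_lt_pow_left₀ hx (norm_nonneg _) two_ne_zero
  unfold F1 F2
  split_ifs with h
  · ring
  · have := A_ge_twelve hc hR (not_lt.mp h) hs2
    rw [dPhi_top (by linarith), ddPhi_top (by linarith)]
    ring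

lemma tsupport_tu (hN : 64 ≤ N) (hR : 0 < R) :
    tsupport (tu N R) ⊆ Metric.closedBall 0 (R * Real.exp (-(1/1000) / ((N:ℝ) - 2))) := by
  have hc : (0:ℝ) < (N:ℝ) - 2 := by
    have : (64:ℝ) ≤ N := by exact_mod_cast hN
    linarith
  apply closure_minimal _ Metric.isClosed_closedBall
  intro x hx
  rw [mem_closedBall_zero_iff]
  by_contra hcon
  push Not at hcon
  apply hx
  set c : ℝ := (N:ℝ) - 2 with hcdef
  have h0 : 0 < R * Real.exp (-(1/1000) / c) := by positivity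
  have h1 : R ^ 2 * Real.exp (-2 * (1/1000) / c) ≤ ‖x‖ ^ 2 := by
    have e1 : R ^ 2 * Real.exp (-2 * (1/1000) / c) = (R * Real.exp (-(1/1000) / c)) ^ 2 := by
      rw [mul_pow, ← Real.exp_nat_mul]
      congr 2
      push_cast
      ring
    rw [e1]
    exact pow_le_pow_left₀ h0.le hcon.le 2
  have h2 : s1 c R < ‖x‖ ^ 2 := by
    refine lt_of_lt_of_le ?_ h1
    unfold s1
    apply mul_lt_mul_of_pos_left _ (by positivity)
    apply Real.exp_lt_exp.mpr
    apply div_lt_div_of_pos_right _ hc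
    norm_num
  have h3 : A c R (‖x‖ ^ 2) ≤ 1/1000 := by
    rw [← A_scale hc hR (1/1000)]
    exact A_antitone hc (by positivity) h1
  show F c R (‖x‖ ^ 2) = 0
  unfold F
  rw [if_neg (not_lt.mpr h2.le), Phi_zero h3]

lemma tu_ge (hN : 64 ≤ N) (hR : 0 < R) {x : EuclideanSpace ℝ (Fin N)}
    (h1 : R * Real.exp (-(4/5) / ((N:ℝ) - 2)) ≤ ‖x‖)
    (h2 : ‖x‖ < R * Real.exp (-(3/5) / ((N:ℝ) - 2))) :
    0 < Real.log (R / ‖x‖) ∧
      597/1000 * (((N:ℝ) - 2) * Real.log (R / ‖x‖)) ^ 2 ≤ tu N R x := by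
  have hc : (0:ℝ) < (N:ℝ) - 2 := by
    have : (64:ℝ) ≤ N := by exact_mod_cast hN
    linarith
  unfold tu
  set c : ℝ := (N:ℝ) - 2 with hcdef
  have h0 : 0 < R * Real.exp (-(4/5) / c) := by positivity
  have hx0 : 0 < ‖x‖ := lt_of_lt_of_le h0 h1
  have hA : A c R (‖x‖ ^ 2) = c * Real.log (R / ‖x‖) := by
    unfold A
    rw [Real.log_div hR.ne' hx0.ne', Real.log_pow]
    push_cast
    ring
  have hl1 : Real.log ‖x‖ < Real.log R + -(3/5) / c := by
    have := Real.log_lt_log hx0 h2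
    rwa [Real.log_mul hR.ne' (Real.exp_pos _).ne', Real.log_exp] at this
  have hl2 : Real.log R + -(4/5) / c ≤ Real.log ‖x‖ := by
    have := Real.log_le_log h0 h1
    rwa [Real.log_mul hR.ne' (Real.exp_pos _).ne', Real.log_exp] at this
  have hld : Real.log (R / ‖x‖) = Real.log R - Real.log ‖x‖ := Real.log_div hR.ne' hx0.ne'
  have hb1 : 3/5 ≤ c * Real.log (R / ‖x‖) := by
    rw [hld]
    have : (3/5)/c ≤ Real.log R - Real.log ‖x‖ := by
      have e : -(3/5)/c = -((3/5)/c) := by ring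
      rw [e] at hl1; linarith
    calc (3/5 : ℝ) = c * ((3/5)/c) := by field_simp
      _ ≤ _ := by gcongr
  have hb2 : c * Real.log (R / ‖x‖) ≤ 4/5 := by
    rw [hld]
    have : Real.log R - Real.log ‖x‖ ≤ (4/5)/c := by
      have e : -(4/5)/c = -((4/5)/c) := by ring
      rw [e] at hl2; linarith
    calc c * (Real.log R - Real.log ‖x‖) ≤ c * ((4/5)/c) := by gcongr
      _ = 4/5 := by field_simp
  refine ⟨?_, ?_⟩
  · by_contra hcon
    push Not at hcon
    have : c * Real.log (R / ‖x‖) ≤ 0 := mul_nonpos_of_nonneg_of_nonpos hc.le hcon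
    linarith
  · have hs1 : ¬ (‖x‖ ^ 2 < s1 c R) := by
      intro h
      have h3 := A_antitone (R := R) hc (by positivity : 0 < ‖x‖ ^ 2) h.le
      have h4 : A c R (s1 c R) = 13 := by
        have := A_scale hc hR 13
        unfold s1
        rw [← this]
        norm_num
      rw [h4, hA] at h3
      linarith
    unfold F
    rw [if_neg hs1, hA]
    exact Phi_ge hb1 hb2

end Pool.Agent.HRLog
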